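import Pool.Agent.Q264.KS.Stm3

/-!
# James' theorem on Birkhoff-James orthogonality (project KS of helper264)
-/

namespace Pool.Agent.Q178.KS

open Pool.Agent.Q264.KS Module

universe u

theorem t_HB : S_HB.{u} := by
  intro X _ _ _ h v hb
  let S : Submodule ℝ X := Submodule.span ℝ {v}
  obtain ⟨g', hg1, hg2⟩ := exists_dual_vector'' ℝ (Submodule.Quotient.mk h : X ⧸ S)
  have hle : ∀ y : X, |g' (Submodule.Quotient.mk y)| ≤ ‖y‖ := by
    intro y
    calc |g' (Submodule.Quotient.mk y)| ≤ ‖g'‖ * ‖(Submodule.Quotient.mk y : X ⧸ S)‖ :=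
          g'.le_opNorm _
      _ ≤ 1 * ‖y‖ :=
          mul_le_mul hg1 (Submodule.Quotient.norm_mk_le (S := S) y) (norm_nonneg _) zero_le_one
      _ = ‖y‖ := one_mul _
  have hge : ‖h‖ ≤ ‖(Submodule.Quotient.mk h : X ⧸ S)‖ := by
    by_contra hlt
    push Not at hlt
    obtain ⟨m, hm1, hm2⟩ := Submodule.Quotient.norm_mk_lt (S := S)
      (Submodule.Quotient.mk h : X ⧸ S) (sub_pos.2 hlt)
    rw [add_sub_cancel] at hm2
    have hm3 : m - h ∈ S := (Submodule.Quotient.eq S).1 hm1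
    obtain ⟨l, hl⟩ := Submodule.mem_span_singleton.1 hm3
    have h1 := hb l
    rw [hl, add_sub_cancel] at h1
    linarith
  let G : X →ₗ[ℝ] ℝ := (g' : (X ⧸ S) →ₗ[ℝ] ℝ).comp S.mkQ
  have hG : ∀ y, G y = g' (Submodule.Quotient.mk y) := fun y => rfl
  refine ⟨LinearMap.mkContinuous G 1 (fun y => ?_), fun y => ?_, ?_, ?_⟩
  · rw [one_mul]
    exact hle y
  · rw [LinearMap.mkContinuous_apply, hG]
    exact (abs_le.1 (hle y)).2
  · rw [LinearMap.mkContinuous_apply, hG]
    apply le_antisymm ((abs_le.1 (hle h)).2)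
    rw [hg2]
    exact hge
  · rw [LinearMap.mkContinuous_apply, hG]
    have : (Submodule.Quotient.mk v : X ⧸ S) = 0 :=
      (Submodule.Quotient.mk_eq_zero S).2 (Submodule.mem_span_singleton_self v)
    rw [this, map_zero]

end Pool.Agent.Q178.KS
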